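import Mathlib

set_option autoImplicit false

namespace Pool.Agent.Y384.Cecf

open Finset

/-- `I` is an `ε`-intersecting index set of the sequence `A` of subsets of `Fin n`. -/
def EpsInt {n m : ℕ} (ε : ℝ) (A : Fin m → Finset (Fin n)) (I : Finset (Fin m)) : Prop :=
  ∀ i ∈ I, ∀ j ∈ I, i ≠ j → ε * n < ((A i ∩ A j).card : ℝ)

/-- dependent random choice -/
theorem drc {n m : ℕ} (hn : 1 ≤ n) (c ε : ℝ) (hc : 0 < c) (hε : 0 < ε)
    (A : Fin m → Finset (Fin n)) (hA : ∀ i, c * n < ((A i).card : ℝ)) (q : ℕ) :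
    ∃ I : Finset (Fin m), EpsInt ε A I ∧ (m : ℝ) * c ^ q - (m : ℝ) ^ 2 / 2 * ε ^ q ≤ I.card := by
  classical
  -- bad pairs
  set P : Finset (Fin m × Fin m) :=
    univ.filter (fun p => p.1 < p.2 ∧ ((A p.1 ∩ A p.2).card : ℝ) ≤ ε * n) with hP
  set K : (Fin q → Fin n) → Finset (Fin m) := fun x => univ.filter (fun i => ∀ l, x l ∈ A i)
    with hK
  set Q : (Fin q → Fin n) → Finset (Fin m × Fin m) :=
    fun x => P.filter (fun p => p.1 ∈ K x ∧ p.2 ∈ K x) with hQ
  -- counting
  have cnt : ∀ S : Finset (Fin n),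
      ((univ : Finset (Fin q → Fin n)).filter (fun x => ∀ l, x l ∈ S)).card = S.card ^ q := by
    intro S
    have : ((univ : Finset (Fin q → Fin n)).filter (fun x => ∀ l, x l ∈ S)) =
        Fintype.piFinset (fun _ : Fin q => S) := by
      ext x; simp [Fintype.mem_piFinset]
    rw [this, Fintype.card_piFinset]
    simp
  have h1 : ∑ x, ((K x).card : ℝ) = ∑ i, ((A i).card : ℝ) ^ q := by
    have : ∀ x, ((K x).card : ℝ) = ∑ i, (if ∀ l, x l ∈ A i then (1 : ℝ) else 0) := by
      intro x
      rw [hK]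
      simp only
      rw [Finset.card_filter]
      push_cast
      rfl
    simp_rw [this]
    rw [Finset.sum_comm]
    apply Finset.sum_congr rfl
    intro i _
    rw [← Nat.cast_pow, ← cnt (A i), Finset.card_filter]
    push_cast
    rfl
  have h2 : ∑ x, ((Q x).card : ℝ) = ∑ p ∈ P, ((A p.1 ∩ A p.2).card : ℝ) ^ q := by
    have : ∀ x, ((Q x).card : ℝ) = ∑ p ∈ P, (if ∀ l, x l ∈ A p.1 ∩ A p.2 then (1 : ℝ) else 0) := by
      intro x
      rw [hQ]
      simp only
      rw [Finset.card_filter]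
      push_cast
      apply Finset.sum_congr rfl
      intro p _
      congr 1
      simp only [hK, mem_filter, mem_univ, true_and, mem_inter, eq_iff_iff]
      constructor
      · rintro ⟨h, h'⟩ l; exact ⟨h l, h' l⟩
      · intro h; exact ⟨fun l => (h l).1, fun l => (h l).2⟩
    simp_rw [this]
    rw [Finset.sum_comm]
    apply Finset.sum_congr rfl
    intro p _
    rw [← Nat.cast_pow, ← cnt (A p.1 ∩ A p.2), Finset.card_filter]
    push_cast
    rfl
  have hn0 : (0 : ℝ) < n := by exact_mod_cast hn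
  have hPc : (P.card : ℝ) ≤ (m : ℝ) ^ 2 / 2 := by
    have h3 : 2 * P.card ≤ m ^ 2 := by
      have e : P.card = (P.map (Equiv.prodComm _ _).toEmbedding).card := by rw [card_map]
      have hd : Disjoint P (P.map (Equiv.prodComm (Fin m) (Fin m)).toEmbedding) := by
        rw [Finset.disjoint_left]
        rintro ⟨a, b⟩ h h'
        rw [mem_map] at h'
        obtain ⟨⟨a', b'⟩, h'', he⟩ := h'
        simp only [Equiv.coe_toEmbedding, Equiv.prodComm_apply, Prod.swap_prod_mk,
          Prod.mk.injEq] at he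
        rw [hP, mem_filter] at h h''
        have h5 := h.2.1
        have h6 := h''.2.1
        simp only at h5 h6
        rw [he.1, he.2] at h6
        exact absurd (lt_trans h5 h6) (lt_irrefl _)
      have h4 : (P ∪ P.map (Equiv.prodComm (Fin m) (Fin m)).toEmbedding).card ≤
          (univ : Finset (Fin m × Fin m)).card := card_le_card (subset_univ _)
      rw [card_union_of_disjoint hd, card_map, card_univ, Fintype.card_prod, Fintype.card_fin] at h4
      nlinarith
    have : (2 : ℝ) * P.card ≤ (m : ℝ) ^ 2 := by exact_mod_cast h3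
    linarith
  -- averaging
  have h3 : (m : ℝ) * (c * n) ^ q ≤ ∑ i, ((A i).card : ℝ) ^ q := by
    calc (m : ℝ) * (c * n) ^ q = ∑ _i : Fin m, (c * n) ^ q := by simp
      _ ≤ _ := Finset.sum_le_sum fun i _ => pow_le_pow_left₀ (by positivity) (hA i).le q
  have h4 : ∑ p ∈ P, ((A p.1 ∩ A p.2).card : ℝ) ^ q ≤ (m : ℝ) ^ 2 / 2 * (ε * n) ^ q := by
    calc ∑ p ∈ P, ((A p.1 ∩ A p.2).card : ℝ) ^ q ≤ ∑ _p ∈ P, (ε * n) ^ q := by
          apply Finset.sum_le_sum
          intro p hp
          rw [hP, mem_filter] at hp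
          exact pow_le_pow_left₀ (by positivity) hp.2.2 q
      _ = P.card * (ε * n) ^ q := by simp
      _ ≤ _ := mul_le_mul_of_nonneg_right hPc (by positivity)
  have hne : (univ : Finset (Fin q → Fin n)).Nonempty := ⟨fun _ => ⟨0, hn⟩, mem_univ _⟩
  obtain ⟨x, -, hx⟩ := Finset.exists_le_of_sum_le (s := (univ : Finset (Fin q → Fin n)))
    (f := fun _ => (m : ℝ) * c ^ q - (m : ℝ) ^ 2 / 2 * ε ^ q)
    (g := fun x => ((K x).card : ℝ) - (Q x).card) hne (by
      rw [Finset.sum_const, card_univ, Fintype.card_fun,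
        Fintype.card_fin, Fintype.card_fin, nsmul_eq_mul, Finset.sum_sub_distrib, h1, h2]
      push_cast
      have : (n : ℝ) ^ q * ((m : ℝ) * c ^ q - (m : ℝ) ^ 2 / 2 * ε ^ q) =
        (m : ℝ) * (c * n) ^ q - (m : ℝ) ^ 2 / 2 * (ε * n) ^ q := by
        rw [mul_pow, mul_pow]; ring
      rw [this]
      linarith)
  -- delete
  refine ⟨K x \ (Q x).image Prod.fst, ?_, ?_⟩
  · have key : ∀ i ∈ K x \ (Q x).image Prod.fst, ∀ j ∈ K x \ (Q x).image Prod.fst, i < j →
        ε * n < ((A i ∩ A j).card : ℝ) := by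
      intro i hi j hj hij
      rw [mem_sdiff] at hi hj
      by_contra hcon
      push Not at hcon
      apply hi.2
      rw [mem_image]
      refine ⟨(i, j), ?_, rfl⟩
      rw [hQ]
      simp only [mem_filter]
      refine ⟨?_, hi.1, hj.1⟩
      rw [hP, mem_filter]
      exact ⟨mem_univ _, hij, hcon⟩
    intro i hi j hj hij
    rcases lt_or_gt_of_ne hij with h | h
    · exact key i hi j hj h
    · rw [inter_comm]; exact key j hj i hi h
  · have h5 : (K x).card ≤ (K x \ (Q x).image Prod.fst).card + (Q x).card := by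
      have := Finset.le_card_sdiff ((Q x).image Prod.fst) (K x)
      have h6 : ((Q x).image Prod.fst).card ≤ (Q x).card := card_image_le
      omega
    have h7 : ((K x).card : ℝ) ≤ (K x \ (Q x).image Prod.fst).card + (Q x).card := by
      exact_mod_cast h5
    linarith

end Pool.Agent.Y384.Cecf
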