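import Mathlib
import Pool.Agent.Y384.CecfDefs

set_option autoImplicit false

namespace Pool.Agent.Y384.Cecf

open Finset

/-- lower bound, many points -/
theorem lower_pow {n m : ℕ} (hn : 1 ≤ n) (hm : 1 ≤ m) (c ε δ : ℝ) (hc : 0 < c) (hc1 : c < 1)
    (hδ : 0 < δ) (hε : 0 < ε) (hεc : ε ≤ c ^ (1 + 1 / δ))
    (A : Fin m → Finset (Fin n)) (hA : ∀ i, c * n < ((A i).card : ℝ)) :
    ∃ I : Finset (Fin m), EpsInt ε A I ∧
      c / 2 * m * Real.exp (-(δ * Real.log m)) ≤ (I.card : ℝ) := by
  set L := Real.log (1 / c) with hL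
  have hLpos : 0 < L := Real.log_pos (by rw [lt_div_iff₀ hc]; linarith)
  have hcL : Real.log c = -L := by rw [hL, one_div, Real.log_inv, neg_neg]
  have hm0 : (0 : ℝ) < m := by exact_mod_cast hm
  have hlogm : 0 ≤ Real.log m := Real.log_nonneg (by exact_mod_cast hm)
  set q := ⌈δ * Real.log m / L⌉₊ with hq
  obtain ⟨I, hI, hIc⟩ := drc hn c ε hc hε A hA q
  refine ⟨I, hI, le_trans ?_ hIc⟩
  have hq1 : δ * Real.log m / L ≤ q := Nat.le_ceil _
  have hq2 : (q : ℝ) < δ * Real.log m / L + 1 := Nat.ceil_lt_add_one (by positivity)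
  have hcexp : ∀ x : ℝ, c ^ x = Real.exp (-(L * x)) := by
    intro x
    rw [Real.rpow_def_of_pos hc, hcL]
    congr 1; ring
  have hcq : c ^ q = Real.exp (-(L * q)) := by
    rw [← Real.rpow_natCast, hcexp]
  -- m ε^q ≤ c^q
  have h1 : (m : ℝ) * ε ^ q ≤ c ^ q := by
    have h2 : ε ^ q ≤ Real.exp (-(L * (1 + 1 / δ) * q)) := by
      calc ε ^ q ≤ (c ^ (1 + 1 / δ)) ^ q := pow_le_pow_left₀ hε.le hεc q
        _ = Real.exp (-(L * (1 + 1 / δ) * q)) := by
          rw [hcexp, ← Real.exp_nat_mul]
          congr 1; ring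
    calc (m : ℝ) * ε ^ q ≤ Real.exp (Real.log m) * Real.exp (-(L * (1 + 1 / δ) * q)) := by
          rw [Real.exp_log hm0]
          exact mul_le_mul_of_nonneg_left h2 hm0.le
      _ = Real.exp (Real.log m - L * (1 + 1 / δ) * q) := by rw [← Real.exp_add]; congr 1
      _ ≤ Real.exp (-(L * q)) := by
          apply Real.exp_le_exp.2
          have h3 : Real.log m ≤ L / δ * q := by
            rw [div_le_iff₀ hLpos] at hq1
            rw [div_mul_eq_mul_div, le_div_iff₀ hδ]
            linarith
          have h4 : L * (1 + 1 / δ) * q = L * q + L / δ * q := by ring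
          linarith
      _ = c ^ q := hcq.symm
  have h5 : c * Real.exp (-(δ * Real.log m)) ≤ c ^ q := by
    rw [hcq]
    calc c * Real.exp (-(δ * Real.log m)) = Real.exp (-L) * Real.exp (-(δ * Real.log m)) := by
          rw [← hcL, Real.exp_log hc]
      _ = Real.exp (-L - δ * Real.log m) := by rw [← Real.exp_add]; congr 1
      _ ≤ Real.exp (-(L * q)) := by
          apply Real.exp_le_exp.2
          have h6 : L * q ≤ δ * Real.log m + L := by
            have := mul_lt_mul_of_pos_left hq2 hLpos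
            have h7 : L * (δ * Real.log m / L + 1) = δ * Real.log m + L := by
              field_simp
            linarith
          linarith
  have h8 : (m : ℝ) ^ 2 / 2 * ε ^ q ≤ m / 2 * c ^ q := by
    calc (m : ℝ) ^ 2 / 2 * ε ^ q = m / 2 * (m * ε ^ q) := by ring
      _ ≤ _ := mul_le_mul_of_nonneg_left h1 (by positivity)
  calc c / 2 * m * Real.exp (-(δ * Real.log m)) = m / 2 * (c * Real.exp (-(δ * Real.log m))) := by
        ring
    _ ≤ m / 2 * c ^ q := mul_le_mul_of_nonneg_left h5 (by positivity)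
    _ ≤ _ := by linarith

/-- lower bound, few points -/
theorem lower_small {n m : ℕ} (hn : 1 ≤ n) (c ε : ℝ) (hc : 0 < c) (hc1 : c < 1)
    (hε : 0 < ε) (hεc : ε ≤ c / 2)
    (A : Fin m → Finset (Fin n)) (hA : ∀ i, c * n < ((A i).card : ℝ)) :
    ∃ I : Finset (Fin m), EpsInt ε A I ∧
      c / 2 * m * Real.exp (-(ε * Real.log (2 / c) * n)) ≤ (I.card : ℝ) := by
  classical
  set q := ⌊ε * n⌋₊ + 1 with hq
  have hn0 : (0 : ℝ) < n := by exact_mod_cast hn
  have hq1 : ε * n < q := by
    rw [hq]; push_cast; exact Nat.lt_floor_add_one _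
  have hq2 : (q : ℝ) ≤ ε * n + 1 := by
    rw [hq]; push_cast
    have := Nat.floor_le (a := ε * n) (by positivity)
    linarith
  have hqn : q ≤ n := by
    have h1 : ε * n < n := by nlinarith
    have h2 : ⌊ε * n⌋₊ < n := (Nat.floor_lt (by positivity)).2 h1
    omega
  -- averaging over q-subsets
  have h1 : ∑ T ∈ powersetCard q (univ : Finset (Fin n)),
      (((univ : Finset (Fin m)).filter (fun i => T ⊆ A i)).card : ℝ) =
      ∑ i : Fin m, (((A i).card.choose q : ℕ) : ℝ) := by
    have : ∀ T, (((univ : Finset (Fin m)).filter (fun i => T ⊆ A i)).card : ℝ) =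
        ∑ i : Fin m, (if T ⊆ A i then (1 : ℝ) else 0) := by
      intro T
      rw [Finset.card_filter]
      push_cast
      rfl
    simp_rw [this]
    rw [Finset.sum_comm]
    apply Finset.sum_congr rfl
    intro i _
    have h2 : ((powersetCard q (univ : Finset (Fin n))).filter (fun T => T ⊆ A i)) =
        powersetCard q (A i) := by
      ext T
      simp only [mem_filter, mem_powersetCard]
      constructor
      · rintro ⟨⟨-, h⟩, h'⟩; exact ⟨h', h⟩
      · rintro ⟨h, h'⟩; exact ⟨⟨subset_univ _, h'⟩, h⟩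
    rw [← card_powersetCard, ← h2, Finset.card_filter]
    push_cast
    rfl
  have hch : ∀ i : Fin m, (c / 2) ^ q * (n.choose q : ℝ) ≤ ((A i).card.choose q : ℝ) := by
    intro i
    have ha : c * n < ((A i).card : ℝ) := hA i
    set a := (A i).card with hadef
    have hfact : (0 : ℝ) < (q.factorial : ℝ) := by exact_mod_cast Nat.factorial_pos q
    have h3 : ((n.choose q : ℕ) : ℝ) * q.factorial ≤ (n : ℝ) ^ q := by
      have := Nat.descFactorial_le_pow n q
      rw [Nat.descFactorial_eq_factorial_mul_choose] at this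
      have h4 : ((q.factorial * n.choose q : ℕ) : ℝ) ≤ ((n ^ q : ℕ) : ℝ) := by exact_mod_cast this
      push_cast at h4
      linarith
    have h5 : (c / 2 * n) ^ q ≤ (a.choose q : ℝ) * q.factorial := by
      have := Nat.pow_sub_le_descFactorial a q
      rw [Nat.descFactorial_eq_factorial_mul_choose] at this
      have h4 : (((a + 1 - q) ^ q : ℕ) : ℝ) ≤ ((q.factorial * a.choose q : ℕ) : ℝ) := by
        exact_mod_cast this
      push_cast at h4
      have hqa : q ≤ a + 1 := by
        have : (q : ℝ) ≤ a + 1 := by nlinarith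
        exact_mod_cast this
      rw [Nat.cast_sub hqa] at h4
      push_cast at h4
      have h6 : c / 2 * n ≤ (a : ℝ) + 1 - q := by nlinarith
      calc (c / 2 * n) ^ q ≤ ((a : ℝ) + 1 - q) ^ q := pow_le_pow_left₀ (by positivity) h6 q
        _ ≤ _ := by linarith
    have h7 : (c / 2) ^ q * ((n.choose q : ℝ) * q.factorial) ≤ (a.choose q : ℝ) * q.factorial := by
      calc (c / 2) ^ q * ((n.choose q : ℝ) * q.factorial) ≤ (c / 2) ^ q * (n : ℝ) ^ q :=
            mul_le_mul_of_nonneg_left h3 (by positivity)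
        _ = (c / 2 * n) ^ q := by rw [mul_pow]
        _ ≤ _ := h5
    have h8 : ((c / 2) ^ q * (n.choose q : ℝ)) * q.factorial ≤ (a.choose q : ℝ) * q.factorial := by
      linarith
    exact le_of_mul_le_mul_right h8 hfact
  have hne : (powersetCard q (univ : Finset (Fin n))).Nonempty := by
    rw [powersetCard_nonempty, card_univ, Fintype.card_fin]; exact hqn
  obtain ⟨T, hT, hTc⟩ := Finset.exists_le_of_sum_le (s := powersetCard q (univ : Finset (Fin n)))
    (f := fun _ => (m : ℝ) * (c / 2) ^ q)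
    (g := fun T => (((univ : Finset (Fin m)).filter (fun i => T ⊆ A i)).card : ℝ)) hne (by
      rw [h1, Finset.sum_const, card_powersetCard, card_univ, Fintype.card_fin, nsmul_eq_mul]
      calc (n.choose q : ℝ) * (m * (c / 2) ^ q) = ∑ _i : Fin m, (c / 2) ^ q * (n.choose q : ℝ) := by
            simp; ring
        _ ≤ _ := Finset.sum_le_sum fun i _ => hch i)
  refine ⟨univ.filter (fun i => T ⊆ A i), ?_, le_trans ?_ hTc⟩
  · intro i hi j hj _
    rw [mem_filter] at hi hj
    have h9 : T.card ≤ (A i ∩ A j).card := card_le_card (subset_inter hi.2 hj.2)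
    rw [(mem_powersetCard.1 hT).2] at h9
    have : (q : ℝ) ≤ ((A i ∩ A j).card : ℝ) := by exact_mod_cast h9
    linarith
  · have hc2 : 0 < c / 2 := by positivity
    set L := Real.log (2 / c) with hL
    have hL0 : 0 < L := Real.log_pos (by rw [lt_div_iff₀ hc]; linarith)
    have hexp : c / 2 = Real.exp (-L) := by
      rw [hL, ← Real.log_inv, inv_div, Real.exp_log hc2]
    calc c / 2 * m * Real.exp (-(ε * L * n)) = m * Real.exp (-L - ε * L * n) := by
          rw [hexp, sub_eq_add_neg, Real.exp_add]; ring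
      _ ≤ m * Real.exp (-(L * q)) := by
          apply mul_le_mul_of_nonneg_left _ (Nat.cast_nonneg _)
          apply Real.exp_le_exp.2
          have : L * q ≤ L * (ε * n + 1) := mul_le_mul_of_nonneg_left hq2 hL0.le
          linarith
      _ = m * (c / 2) ^ q := by
          rw [hexp, ← Real.exp_nat_mul]
          congr 2; ring

end Pool.Agent.Y384.Cecf
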