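import Mathlib
import Pool.Agent.Y384.CecfDefs
import Pool.Agent.H559R3.Conc

set_option autoImplicit false

namespace Pool.Agent.Y384.Cecf

open Finset

/-- a family of sets with pairwise intersections at least `r` is exponentially small -/
theorem inter_card {N : ℕ} (F : Finset (Finset (Fin N))) (r : ℕ) (t : ℝ) (ht : 0 ≤ t)
    (hrN : r ≤ N) (h : ∀ W ∈ F, ∀ Z ∈ F, W ≠ Z → r ≤ (W ∩ Z).card) :
    (F.card : ℝ) ^ 2 ≤ Real.exp (t ^ 2 * N / 4 - t * r) * (2 ^ N) ^ 2 := by
  classical
  -- indicator functions
  let χ : Finset (Fin N) → (Fin N → Bool) := fun W i => decide (i ∈ W)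
  let χ' : Finset (Fin N) → (Fin N → Bool) := fun W i => decide (i ∉ W)
  have hχ : Function.Injective χ := by
    intro W Z hWZ
    ext i
    have := congrFun hWZ i
    simp only [χ, decide_eq_decide] at this
    exact this
  have hχ' : Function.Injective χ' := by
    intro W Z hWZ
    ext i
    have := congrFun hWZ i
    simp only [χ', decide_eq_decide] at this
    exact not_iff_not.1 this
  have h1 := Pool.Agent.H559R3.Conc.two_sets (m := N) (fun _ => Bool) (F.image χ) (F.image χ') r t
    ht (by
      intro x hx y hy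
      rw [mem_image] at hx hy
      obtain ⟨W, hW, rfl⟩ := hx
      obtain ⟨Z, hZ, rfl⟩ := hy
      by_cases hWZ : W = Z
      · subst hWZ
        refine hrN.trans ?_
        unfold hammingDist
        rw [Finset.filter_true_of_mem]
        · simp
        · intro i _
          simp only [χ, χ', ne_eq, decide_eq_decide]
          tauto
      · refine (h W hW Z hZ hWZ).trans ?_
        unfold hammingDist
        apply card_le_card
        intro i hi
        rw [mem_inter] at hi
        simp only [mem_filter, mem_univ, true_and, χ, χ', ne_eq, decide_eq_decide]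
        tauto)
  rw [card_image_of_injective _ hχ, card_image_of_injective _ hχ'] at h1
  simp only [Fintype.card_pi, Fintype.card_bool, prod_const, card_univ, Fintype.card_fin] at h1
  push_cast at h1
  calc (F.card : ℝ) ^ 2 = F.card * F.card := by ring
    _ ≤ _ := h1

/-- the block map -/
def blk (n N : ℕ) (hN : 0 < N) (x : Fin n) : Fin N := ⟨x.1 % N, Nat.mod_lt _ hN⟩

/-- blow-up -/
def blow (n N : ℕ) (hN : 0 < N) (W : Finset (Fin N)) : Finset (Fin n) :=
  univ.filter (fun x => blk n N hN x ∈ W)

theorem blk_card (n N : ℕ) (hN : 0 < N) (hNn : N ≤ n) (w : Fin N) :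
    ((univ : Finset (Fin n)).filter (fun x => blk n N hN x = w)).card * N ≤ 2 * n := by
  -- number of x < n with x % N = w is at most n / N + 1
  have h1 : ((univ : Finset (Fin n)).filter (fun x => blk n N hN x = w)).card ≤ n / N + 1 := by
    have h2 : ((univ : Finset (Fin n)).filter (fun x => blk n N hN x = w)).card ≤
        (range (n / N + 1)).card := by
      apply Finset.card_le_card_of_injOn (fun x => x.1 / N)
      · intro x hx
        simp only [coe_range, Set.mem_Iio]
        have : x.1 / N ≤ n / N := Nat.div_le_div_right x.2.le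
        omega
      · intro x hx y hy hxy
        have hx1 : x.1 % N = w.1 := congrArg Fin.val (mem_filter.1 (mem_coe.1 hx)).2
        have hy1 : y.1 % N = w.1 := congrArg Fin.val (mem_filter.1 (mem_coe.1 hy)).2
        apply Fin.ext
        simp only at hxy
        rw [← Nat.div_add_mod x.1 N, ← Nat.div_add_mod y.1 N, hxy, hx1, hy1]
    rwa [card_range] at h2
  calc _ ≤ (n / N + 1) * N := Nat.mul_le_mul_right N h1
    _ = n / N * N + N := by ring
    _ ≤ n + n := Nat.add_le_add (Nat.div_mul_le_self n N) hNn
    _ = 2 * n := by ring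

theorem blow_inter (n N : ℕ) (hN : 0 < N) (W Z : Finset (Fin N)) :
    blow n N hN W ∩ blow n N hN Z = blow n N hN (W ∩ Z) := by
  ext x; simp [blow]

theorem blow_card_le (n N : ℕ) (hN : 0 < N) (hNn : N ≤ n) (W : Finset (Fin N)) :
    (blow n N hN W).card * N ≤ W.card * (2 * n) := by
  classical
  have h1 : (blow n N hN W) = W.biUnion
      (fun w => (univ : Finset (Fin n)).filter (fun x => blk n N hN x = w)) := by
    ext x
    simp [blow]
  have h2 : (blow n N hN W).card ≤
      ∑ w ∈ W, ((univ : Finset (Fin n)).filter (fun x => blk n N hN x = w)).card := by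
    rw [h1]; exact card_biUnion_le
  calc (blow n N hN W).card * N ≤
        (∑ w ∈ W, ((univ : Finset (Fin n)).filter (fun x => blk n N hN x = w)).card) * N :=
        Nat.mul_le_mul_right N h2
    _ = ∑ w ∈ W, ((univ : Finset (Fin n)).filter (fun x => blk n N hN x = w)).card * N := by
        rw [sum_mul]
    _ ≤ ∑ _w ∈ W, 2 * n := sum_le_sum fun w _ => blk_card n N hN hNn w
    _ = W.card * (2 * n) := by simp

theorem blow_compl (n N : ℕ) (hN : 0 < N) (W : Finset (Fin N)) :
    (blow n N hN W).card + (blow n N hN Wᶜ).card = n := by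
  classical
  have : blow n N hN Wᶜ = (blow n N hN W)ᶜ := by
    ext x; simp [blow]
  rw [this, card_add_card_compl, Fintype.card_fin]

/-- at least a quarter of the sets have a large blow-up -/
theorem quarter (n N : ℕ) (hN : 0 < N) (hNn : N ≤ n) :
    2 ^ N ≤ 4 * ((univ : Finset (Finset (Fin N))).filter
      (fun W => n < 2 * (blow n N hN W).card)).card := by
  classical
  set G := (univ : Finset (Finset (Fin N))).filter (fun W => n < 2 * (blow n N hN W).card) with hG
  let o : Fin N := ⟨0, hN⟩
  set S := (univ : Finset (Finset (Fin N))).filter (fun W => o ∉ W) with hS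
  have hScard : 2 * S.card = 2 ^ N := by
    have h1 : S.card = ((univ : Finset (Finset (Fin N))).filter (fun W => ¬ o ∉ W)).card := by
      apply Finset.card_bij (fun W _ => Wᶜ)
      · intro W hW
        rw [hS, mem_filter] at hW
        simp only [mem_filter, mem_univ, true_and, mem_compl, not_not]
        exact hW.2
      · intro W _ Z _ h
        exact compl_injective h
      · intro W hW
        simp only [mem_filter, mem_univ, true_and, not_not] at hW
        exact ⟨Wᶜ, by simp [hS, hW], compl_compl W⟩
    have h2 := Finset.card_filter_add_card_filter_not (s := (univ : Finset (Finset (Fin N))))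
      (fun W => o ∉ W)
    rw [← h1, ← hS, card_univ, Fintype.card_finset, Fintype.card_fin] at h2
    omega
  -- two-to-one map
  have hmap : S ⊆ (G.image (fun Z => Z.erase o)) ∪ (G.image (fun Z => Zᶜ)) := by
    intro W hW
    rw [hS, mem_filter] at hW
    rw [mem_union, mem_image, mem_image]
    by_cases hb : n < 2 * (blow n N hN (insert o W)).card
    · left
      refine ⟨insert o W, ?_, ?_⟩
      · rw [hG, mem_filter]; exact ⟨mem_univ _, hb⟩
      · rw [erase_insert hW.2]
    · right
      refine ⟨Wᶜ, ?_, compl_compl W⟩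
      rw [hG, mem_filter]
      refine ⟨mem_univ _, ?_⟩
      have h3 := blow_compl n N hN W
      have h4 : (blow n N hN W).card < (blow n N hN (insert o W)).card := by
        apply card_lt_card
        rw [Finset.ssubset_iff_of_subset]
        · refine ⟨⟨0, by omega⟩, ?_, ?_⟩
          · simp [blow, blk, o]
          · intro hmem
            have h9 : blk n N hN ⟨0, by omega⟩ ∈ W := (mem_filter.1 hmem).2
            have h10 : blk n N hN ⟨0, by omega⟩ = o := Fin.ext (Nat.zero_mod N)
            rw [h10] at h9
            exact hW.2 h9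
        · intro x hx
          simp only [blow, mem_filter, mem_univ, true_and] at hx ⊢
          exact mem_insert_of_mem hx
      omega
  have h5 := card_le_card hmap
  have h6 := card_union_le (G.image (fun Z => Z.erase o)) (G.image (fun Z => Zᶜ))
  have h7 : (G.image (fun Z => Z.erase o)).card ≤ G.card := card_image_le
  have h8 : (G.image (fun Z => Zᶜ)).card ≤ G.card := card_image_le
  omega

/-- upper bound construction -/
theorem upper {n m : ℕ} (hn : 1 ≤ n) (hm : 1 ≤ m) (c ε : ℝ) (hc : c ≤ 1 / 2)
    (hε : 0 < ε) (hε1 : ε ≤ 1) :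
    ∃ A : Fin m → Finset (Fin n), (∀ i, c * n < ((A i).card : ℝ)) ∧
      ∀ I : Finset (Fin m), EpsInt ε A I →
        (I.card : ℝ) ≤ 8 * m * Real.exp (-(ε ^ 2 / 8 * min (Real.log m) n)) := by
  classical
  set N := min n (Nat.clog 2 m + 1) with hNdef
  have hN : 0 < N := by omega
  have hNn : N ≤ n := by omega
  set G := (univ : Finset (Finset (Fin N))).filter (fun W => n < 2 * (blow n N hN W).card) with hG
  have hquart : 2 ^ N ≤ 4 * G.card := quarter n N hN hNn
  have hGpos : 0 < G.card := by
    have : 0 < 2 ^ N := by positivity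
    omega
  let e := G.equivFin.symm
  let φ : Fin m → Finset (Fin N) := fun i => (e ⟨i.1 % G.card, Nat.mod_lt _ hGpos⟩).1
  have hφG : ∀ i, φ i ∈ G := fun i => (e ⟨i.1 % G.card, Nat.mod_lt _ hGpos⟩).2
  have hfib : ∀ W, ((univ : Finset (Fin m)).filter (fun i => φ i = W)).card ≤ m / G.card + 1 := by
    intro W
    have h2 : ((univ : Finset (Fin m)).filter (fun i => φ i = W)).card ≤
        (range (m / G.card + 1)).card := by
      apply Finset.card_le_card_of_injOn (fun x => x.1 / G.card)
      · intro x hx
        simp only [coe_range, Set.mem_Iio]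
        have : x.1 / G.card ≤ m / G.card := Nat.div_le_div_right x.2.le
        omega
      · intro x hx y hy hxy
        have hx' : (e ⟨x.1 % G.card, Nat.mod_lt _ hGpos⟩).1 = W := (mem_filter.1 (mem_coe.1 hx)).2
        have hy' : (e ⟨y.1 % G.card, Nat.mod_lt _ hGpos⟩).1 = W := (mem_filter.1 (mem_coe.1 hy)).2
        have h3 : e ⟨x.1 % G.card, Nat.mod_lt _ hGpos⟩ = e ⟨y.1 % G.card, Nat.mod_lt _ hGpos⟩ := by
          apply Subtype.ext; rw [hx', hy']
        have h4 : x.1 % G.card = y.1 % G.card := congrArg Fin.val (e.injective h3)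
        apply Fin.ext
        simp only at hxy
        rw [← Nat.div_add_mod x.1 G.card, ← Nat.div_add_mod y.1 G.card, hxy, h4]
    rwa [card_range] at h2
  have hn0 : (0 : ℝ) < n := by exact_mod_cast hn
  have hm0 : (0 : ℝ) < m := by exact_mod_cast hm
  have hN0 : (0 : ℝ) < N := by exact_mod_cast hN
  refine ⟨fun i => blow n N hN (φ i), ?_, ?_⟩
  · intro i
    have h1 := hφG i
    rw [hG, mem_filter] at h1
    have h2 : (n : ℝ) < 2 * ((blow n N hN (φ i)).card : ℝ) := by exact_mod_cast h1.2
    have h3 : c * n ≤ 1 / 2 * n := mul_le_mul_of_nonneg_right hc hn0.le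
    linarith
  · intro I hI
    set F := I.image φ with hF
    set r := ⌈ε * N / 2⌉₊ with hr
    have hrN : r ≤ N := by
      rw [hr]
      apply Nat.ceil_le.2
      nlinarith
    have hint : ∀ W ∈ F, ∀ Z ∈ F, W ≠ Z → r ≤ (W ∩ Z).card := by
      intro W hW Z hZ hWZ
      rw [hF, mem_image] at hW hZ
      obtain ⟨i, hi, rfl⟩ := hW
      obtain ⟨j, hj, rfl⟩ := hZ
      have hij : i ≠ j := fun h => hWZ (by rw [h])
      have h1 := hI i hi j hj hij
      rw [blow_inter] at h1
      have h2 := blow_card_le n N hN hNn (φ i ∩ φ j)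
      have h3 : ((blow n N hN (φ i ∩ φ j)).card : ℝ) * N ≤ ((φ i ∩ φ j).card : ℝ) * (2 * n) := by
        exact_mod_cast h2
      rw [hr]
      apply Nat.ceil_le.2
      have h4 : ε * n * N ≤ ((φ i ∩ φ j).card : ℝ) * (2 * n) := by nlinarith
      have h5 : (ε * N / 2) * (2 * n) ≤ ((φ i ∩ φ j).card : ℝ) * (2 * n) := by
        calc (ε * N / 2) * (2 * n) = ε * n * N := by ring
          _ ≤ _ := h4
      exact le_of_mul_le_mul_right h5 (by positivity)
    have h1 := inter_card F r ε hε.le hrN hint
    have hr1 : ε * N / 2 ≤ r := Nat.le_ceil _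
    have h2 : (F.card : ℝ) ^ 2 ≤ (Real.exp (-(ε ^ 2 * N / 8)) * 2 ^ N) ^ 2 := by
      calc (F.card : ℝ) ^ 2 ≤ Real.exp (ε ^ 2 * N / 4 - ε * r) * (2 ^ N) ^ 2 := h1
        _ ≤ Real.exp (-(ε ^ 2 * N / 4)) * (2 ^ N) ^ 2 := by
            apply mul_le_mul_of_nonneg_right _ (by positivity)
            apply Real.exp_le_exp.2
            nlinarith
        _ = (Real.exp (-(ε ^ 2 * N / 8)) * 2 ^ N) ^ 2 := by
            rw [mul_pow, ← Real.exp_nat_mul]
            congr 2; push_cast; ring
    have h3 : (F.card : ℝ) ≤ Real.exp (-(ε ^ 2 * N / 8)) * 2 ^ N :=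
      le_of_sq_le_sq h2 (by positivity)
    -- |I| ≤ |F| (m/|G| + 1)
    have h4 : I.card ≤ F.card * (m / G.card + 1) := by
      rw [hF]
      have := Finset.card_le_mul_card_image (f := φ) I (m / G.card + 1) (by
        intro W _
        refine (card_le_card ?_).trans (hfib W)
        intro i hi
        rw [mem_filter] at hi ⊢
        exact ⟨mem_univ _, hi.2⟩)
      linarith
    have h5 : (I.card : ℝ) ≤ F.card * ((m : ℝ) / G.card + 1) := by
      have h6 : ((m / G.card : ℕ) : ℝ) ≤ (m : ℝ) / G.card := Nat.cast_div_le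
      calc (I.card : ℝ) ≤ ((F.card * (m / G.card + 1) : ℕ) : ℝ) := by exact_mod_cast h4
        _ = F.card * (((m / G.card : ℕ) : ℝ) + 1) := by push_cast; ring
        _ ≤ _ := mul_le_mul_of_nonneg_left (by linarith) (Nat.cast_nonneg _)
    have hG0 : (0 : ℝ) < G.card := by exact_mod_cast hGpos
    have h7 : (2 : ℝ) ^ N * ((m : ℝ) / G.card + 1) ≤ 8 * m := by
      have h8 : (2 : ℝ) ^ N ≤ 4 * G.card := by exact_mod_cast hquart
      have h9 : (2 : ℝ) ^ N * ((m : ℝ) / G.card) ≤ 4 * m := by
        rw [← mul_div_assoc, div_le_iff₀ hG0]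
        nlinarith
      have h10 : (2 : ℝ) ^ N ≤ 4 * m := by
        have h11 : 2 ^ N ≤ 2 ^ (Nat.clog 2 m + 1) := Nat.pow_le_pow_right (by norm_num) (by omega)
        have h12 : 2 ^ (Nat.clog 2 m + 1) ≤ 4 * m := by
          rcases Nat.eq_or_lt_of_le hm with h | h
          · rw [← h]; simp
          · have h13 : 2 ^ (Nat.clog 2 m).pred < m := Nat.pow_pred_clog_lt_self (by norm_num) h
            have h14 : 0 < Nat.clog 2 m := Nat.clog_pos (by norm_num) h
            obtain ⟨k, hk⟩ : ∃ k, Nat.clog 2 m = k + 1 := ⟨Nat.clog 2 m - 1, by omega⟩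
            rw [hk] at h13 ⊢
            rw [Nat.pred_succ] at h13
            rw [pow_succ, pow_succ]
            omega
        have : 2 ^ N ≤ 4 * m := h11.trans h12
        exact_mod_cast this
      linarith
    have hmin : min (Real.log m) (n : ℝ) ≤ N := by
      rcases le_total n (Nat.clog 2 m + 1) with h | h
      · have : N = n := by omega
        rw [this]; exact min_le_right _ _
      · have h15 : N = Nat.clog 2 m + 1 := by omega
        refine (min_le_left _ _).trans ?_
        rw [h15]
        push_cast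
        have h16 : (m : ℝ) ≤ 2 ^ Nat.clog 2 m := by
          exact_mod_cast Nat.le_pow_clog (by norm_num) m
        have h17 : Real.log m ≤ Nat.clog 2 m * Real.log 2 := by
          rw [← Real.log_pow]
          exact Real.log_le_log hm0 h16
        have h18 : Real.log 2 ≤ 1 := by
          have := Real.log_two_lt_d9; linarith
        have h19 : (0 : ℝ) ≤ Nat.clog 2 m := Nat.cast_nonneg _
        nlinarith
    calc (I.card : ℝ) ≤ F.card * ((m : ℝ) / G.card + 1) := h5
      _ ≤ Real.exp (-(ε ^ 2 * N / 8)) * 2 ^ N * ((m : ℝ) / G.card + 1) :=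
          mul_le_mul_of_nonneg_right h3 (by positivity)
      _ = Real.exp (-(ε ^ 2 * N / 8)) * (2 ^ N * ((m : ℝ) / G.card + 1)) := by ring
      _ ≤ Real.exp (-(ε ^ 2 * N / 8)) * (8 * m) :=
          mul_le_mul_of_nonneg_left h7 (Real.exp_pos _).le
      _ ≤ Real.exp (-(ε ^ 2 / 8 * min (Real.log m) n)) * (8 * m) := by
          apply mul_le_mul_of_nonneg_right _ (by positivity)
          apply Real.exp_le_exp.2
          have : ε ^ 2 / 8 * min (Real.log m) n ≤ ε ^ 2 / 8 * N :=
            mul_le_mul_of_nonneg_left hmin (by positivity)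
          linarith
      _ = _ := by ring

end Pool.Agent.Y384.Cecf
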